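import Pool.Agent.Helper75.PZ.Stmts2

/-! # CEN: the centre of the algebra of twisted operators -/

set_option autoImplicit false

universe u

open Module TensorProduct

namespace Pool.Agent.Helper41.PZ

open Pool.Agent.Helper75.PX Pool.Agent.Helper75.PZ

theorem CEN_single {F M : Type u} [Field F] [Field M] [Algebra F M] (φ ψ : HS M →ₐ[F] HS M)
    (l0 : Fin 6) (h f : HS M) :
    op φ ψ (Pi.single l0 h) f = ψ h * XX M ^ (l0 : ℕ) * (φ^[(l0 : ℕ)]) f := by
  unfold op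
  rw [Finset.sum_eq_single l0]
  · rw [Pi.single_eq_same]
  · intro l _ hl
    rw [Pi.single_eq_of_ne hl, map_zero, zero_mul, zero_mul]
  · intro h
    exact absurd (Finset.mem_univ _) h

theorem CEN_comm {F M : Type u} [Field F] [Field M] [Algebra F M] (σ : M ≃ₐ[F] M)
    (φ ψ : HS M →ₐ[F] HS M) (hφ : PHI σ φ) (hψ : PSI ψ) (h : HS M) : φ (ψ h) = ψ (φ h) := by
  ext γ'
  by_cases hd : 6 ∣ n1 γ'
  · obtain ⟨m, hm⟩ := hd
    obtain ⟨γ, hγ⟩ : ∃ γ : G2, γ = toLex (m, n2 γ') := ⟨_, rfl⟩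
    have e1 : n1 γ' = 6 * n1 γ := by
      rw [hm, hγ]
      rfl
    have e2 : n2 γ' = n2 γ := by
      rw [hγ]
      rfl
    rw [hφ, hψ.1 h γ γ' e1 e2, hψ.1 (φ h) γ γ' e1 e2, hφ, e2]
  · rw [hφ, hψ.2 h γ' hd, hψ.2 (φ h) γ' hd, map_zero, mul_zero]

theorem CEN_it {F M : Type u} [Field F] [Field M] [Algebra F M] (σ : M ≃ₐ[F] M)
    (φ ψ : HS M →ₐ[F] HS M) (hφ : PHI σ φ) (hψ : PSI ψ) (n : ℕ) (h : HS M) :
    φ^[n] (ψ h) = ψ (φ^[n] h) := by
  induction n with
  | zero => rfl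
  | succ n ih =>
    rw [Function.iterate_succ_apply', Function.iterate_succ_apply', ih, CEN_comm σ φ ψ hφ hψ]

theorem CEN_inj {F M : Type u} [Field F] [Field M] [Algebra F M] (hGD : ST_GD.{u})
    (σ : M ≃ₐ[F] M) (φ ψ : HS M →ₐ[F] HS M) (hφ : PHI σ φ) (hψ : PSI ψ)
    (hσ : ∀ m, σ (σ (σ m)) = m) (e e' : Fin 6 → HS M) (h : op φ ψ e 1 = op φ ψ e' 1) :
    e = e' := by
  by_contra hne
  have h1 := (hGD F M σ φ ψ hφ hψ hσ (e - e') (sub_ne_zero.2 hne) 1 one_ne_zero).1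
  apply h1
  have h2 : op φ ψ (e - e') 1 = op φ ψ e 1 - op φ ψ e' 1 := by
    unfold op
    rw [← Finset.sum_sub_distrib]
    refine Finset.sum_congr rfl fun l _ => ?_
    rw [Pi.sub_apply, map_sub]
    ring
  rw [h2, h, sub_self]

/-- the series of degree `(0, 1)` -/
noncomputable def CENY (M : Type u) [Field M] : HS M :=
  HahnSeries.single (toLex ((0 : ℤ), (1 : ℤ))) (1 : M)

theorem CEN_Y {F M : Type u} [Field F] [Field M] [Algebra F M] (σ : M ≃ₐ[F] M)
    (φ : HS M →ₐ[F] HS M) (hφ : PHI σ φ) : φ (CENY M) = -CENY M := by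
  ext γ
  rw [hφ, HahnSeries.coeff_neg]
  by_cases hγ : γ = toLex ((0 : ℤ), (1 : ℤ))
  · subst hγ
    have e2 : n2 (toLex ((0 : ℤ), (1 : ℤ)) : G2) = 1 := rfl
    unfold CENY
    rw [e2, zpow_one, HahnSeries.coeff_single_same, map_one, mul_one]
  · unfold CENY
    rw [HahnSeries.coeff_single_of_ne hγ, map_zero, mul_zero, neg_zero]

theorem CEN_Yit {F M : Type u} [Field F] [Field M] [Algebra F M] (σ : M ≃ₐ[F] M)
    (φ : HS M →ₐ[F] HS M) (hφ : PHI σ φ) (n : ℕ) :
    φ^[n] (CENY M) = (-1) ^ n * CENY M := by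
  induction n with
  | zero => simp
  | succ n ih =>
    rw [Function.iterate_succ_apply', ih, map_mul, map_pow, map_neg, map_one, CEN_Y σ φ hφ,
      pow_succ]
    ring

theorem CEN_C {F M : Type u} [Field F] [Field M] [Algebra F M] (σ : M ≃ₐ[F] M)
    (φ : HS M →ₐ[F] HS M) (hφ : PHI σ φ) (m : M) :
    φ (HahnSeries.single (0 : G2) m) = HahnSeries.single (0 : G2) (σ m) := by
  ext γ
  rw [hφ]
  by_cases hγ : γ = 0
  · subst hγ
    have e2 : n2 (0 : G2) = 0 := rfl
    rw [e2, zpow_zero, one_mul, HahnSeries.coeff_single_same, HahnSeries.coeff_single_same]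
  · rw [HahnSeries.coeff_single_of_ne hγ, HahnSeries.coeff_single_of_ne hγ, map_zero, mul_zero]

theorem CEN_Cit {F M : Type u} [Field F] [Field M] [Algebra F M] (σ : M ≃ₐ[F] M)
    (φ : HS M →ₐ[F] HS M) (hφ : PHI σ φ) (n : ℕ) (m : M) :
    φ^[n] (HahnSeries.single (0 : G2) m) = HahnSeries.single (0 : G2) (σ^[n] m) := by
  induction n with
  | zero => rfl
  | succ n ih =>
    rw [Function.iterate_succ_apply', ih, CEN_C σ φ hφ, Function.iterate_succ_apply']

theorem st_CEN (hGD : ST_GD.{u}) : ST_CEN.{u} := by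
  intro F M _ _ _ σ φ ψ h2 hφ hψ hσ hm K hK A _ _ E Φ hΦ hΦK
  obtain ⟨m, hm⟩ := hm
  have hinj : ∀ a b : A, Φ a 1 = Φ b 1 → a = b := by
    intro a b hab
    rw [hΦ, hΦ] at hab
    exact E.injective (CEN_inj hGD σ φ ψ hφ hψ hσ _ _ hab)
  refine ⟨?_⟩
  intro a ha
  rw [Subalgebra.mem_center_iff] at ha
  obtain ⟨e, he⟩ : ∃ e, e = E a := ⟨_, rfl⟩
  -- commuting with the scalars on the left
  have hcomm : ∀ (h : HS M) (l : Fin 6), e l * (φ^[(l : ℕ)] h - h) = 0 := by
    intro h l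
    have h3 := ha (E.symm (Pi.single 0 h))
    have hb : ∀ f, Φ (E.symm (Pi.single 0 h)) f = ψ h * f := by
      intro f
      rw [hΦ, LinearEquiv.apply_symm_apply, CEN_single]
      show ψ h * XX M ^ 0 * f = ψ h * f
      rw [pow_zero, mul_one]
    have h4 : op φ ψ (fun l => h * e l) 1 = op φ ψ (fun l => e l * φ^[(l : ℕ)] h) 1 := by
      have e1 : Φ (E.symm (Pi.single 0 h) * a) 1 = op φ ψ (fun l => h * e l) 1 := by
        rw [map_mul, Module.End.mul_apply, hb, hΦ, ← he]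
        unfold op
        rw [Finset.mul_sum]
        refine Finset.sum_congr rfl fun l _ => ?_
        rw [map_mul]
        ring
      have e2 : Φ (a * E.symm (Pi.single 0 h)) 1 = op φ ψ (fun l => e l * φ^[(l : ℕ)] h) 1 := by
        rw [map_mul, Module.End.mul_apply, hb, hΦ, ← he]
        unfold op
        refine Finset.sum_congr rfl fun l _ => ?_
        rw [iterate_map_mul, CEN_it σ φ ψ hφ hψ, map_mul]
        ring
      rw [← e1, ← e2, h3]
    have h5 := congrFun (CEN_inj hGD σ φ ψ hφ hψ hσ _ _ h4) l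
    rw [mul_sub, ← h5]
    ring
  have h2' : (2 : HS M) ≠ 0 := by
    have h3 := (map_ne_zero (algebraMap F (HS M))).2 h2
    rwa [map_ofNat] at h3
  have hYne : CENY M ≠ 0 := HahnSeries.single_ne_zero one_ne_zero
  have hodd : ∀ l : Fin 6, Odd (l : ℕ) → e l = 0 := by
    intro l hl
    rcases mul_eq_zero.1 (hcomm (CENY M) l) with h | h
    · exact h
    · exfalso
      rw [CEN_Yit σ φ hφ, hl.neg_one_pow] at h
      have h3 : (2 : HS M) * CENY M = 0 := by linear_combination -h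
      rcases mul_eq_zero.1 h3 with h4 | h4
      · exact h2' h4
      · exact hYne h4
  have heven : ∀ l : Fin 6, σ^[(l : ℕ)] m ≠ m → e l = 0 := by
    intro l hl
    rcases mul_eq_zero.1 (hcomm (HahnSeries.single (0 : G2) m) l) with h | h
    · exact h
    · exfalso
      rw [CEN_Cit σ φ hφ, sub_eq_zero] at h
      exact hl (HahnSeries.single_injective _ h)
  have hσ2 : σ (σ m) ≠ m := by
    intro h
    apply hm
    have h3 := hσ m
    rw [h] at h3
    exact h3
  have hel : ∀ l : Fin 6, l ≠ 0 → e l = 0 := by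
    intro l hl
    fin_cases l
    · exact absurd rfl hl
    · exact hodd 1 ⟨0, rfl⟩
    · exact heven 2 hσ2
    · exact hodd 3 ⟨1, rfl⟩
    · refine heven 4 ?_
      show σ (σ (σ (σ m))) ≠ m
      rw [hσ (σ m)]
      exact hm
    · exact hodd 5 ⟨2, rfl⟩
  have he0 : e = Pi.single 0 (e 0) := by
    funext l
    by_cases hl : l = 0
    · rw [hl, Pi.single_eq_same]
    · rw [Pi.single_eq_of_ne hl, hel l hl]
  have ha0 : ∀ f, Φ a f = ψ (e 0) * f := by
    intro f
    rw [hΦ, ← he, he0, CEN_single]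
    show ψ ((Pi.single 0 (e 0) : Fin 6 → HS M) 0) * XX M ^ 0 * f = _
    rw [Pi.single_eq_same, pow_zero, mul_one]
  have hfix : φ (e 0) = e 0 := by
    have h3 := ha (E.symm (Pi.single 1 1))
    have hb : ∀ f, Φ (E.symm (Pi.single 1 1)) f = XX M * φ f := by
      intro f
      rw [hΦ, LinearEquiv.apply_symm_apply, CEN_single]
      show ψ 1 * XX M ^ 1 * φ f = XX M * φ f
      rw [map_one, one_mul, pow_one]
    have h4 : Φ (E.symm (Pi.single 1 1) * a) 1 = Φ (a * E.symm (Pi.single 1 1)) 1 := by rw [h3]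
    rw [map_mul, map_mul, Module.End.mul_apply, Module.End.mul_apply, hb, hb, ha0, ha0, map_mul,
      map_one, mul_one, mul_one, CEN_comm σ φ ψ hφ hψ] at h4
    have hX : XX M ≠ 0 := HahnSeries.single_ne_zero one_ne_zero
    have h5 : ψ (φ (e 0)) = ψ (e 0) := by
      apply mul_left_cancel₀ hX
      rw [h4, mul_comm]
    exact ψ.toRingHom.injective h5
  rw [Algebra.mem_bot]
  refine ⟨⟨e 0, (hK _).2 hfix⟩, ?_⟩
  apply hinj
  rw [hΦK, ha0]

end Pool.Agent.Helper41.PZ
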